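import Mathlib
import Pool.Agent.Helper81.Batch.Link

/-!
MP_9124ab_co, Q2: the graded character of `S_{α,k}`, `α = (d^r)`, as a module over the wreath
product.

Let `n = r d` and let `g` be an element of the wreath product inducing the permutation `τ` of the
batches. Writing `|c|` for the length of a cycle `c` (fixed points included),

  `∑_i tr(g, (S_{α,k})_i) q^i · ∏_{c cycle of g} (1 - q^|c|)
     = ∑_T (-1)^|T| q^(sum of T) ∏_{c cycle of τ} ∏_{i < d} (1 - q^(|c| (k - |T| - i)))`,

the sum being over all `T ⊆ {n-k+1, ..., n}`.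

Sketch: let `S_{k,m}` be the quotient by the batch relations and `e_n, ..., e_{n-m+1}` only.
Multiplication by `e_{n-m+1}` gives exact sequences
`0 → S_{k-1,m-1}(-(n-m+1)) → S_{k,m-1} → S_{k,m} → 0`. The map is well defined because a
coefficient of `E(t) H_b(-t)` vanishes, and it is injective by a dimension count: peeling off one
variable at a time bounds the Hilbert series of all these rings from above, the bound satisfies the
same recursion, and `S_{k,0}` is a complete intersection. The graded trace on `S_{k,0}` follows from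
the freeness of the polynomial ring over the subalgebra generated by the regular sequence.
-/

namespace Pool.Agent.Results.MP_9124ab_co.GradedCharacter

open MvPolynomial Pool.Agent.Helper81.Batch

/-- The ideal `J_{α,k}` for `α = (d^r)`: the variable `(i, j)` is the `j`-th variable of the batch
`i`; generators are `e_m` in all variables for `r d - k < m ≤ r d` and `h_m` in each batch for
`k - d < m ≤ k`. -/
noncomputable def batchIdeal (k d r : ℕ) : Ideal (MvPolynomial (Fin r × Fin d) ℚ) :=
  Ideal.span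
    ({p | ∃ m : ℕ, r * d < m + k ∧ m ≤ r * d ∧ p = esymm (Fin r × Fin d) ℚ m} ∪
      {p | ∃ (i : Fin r) (m : ℕ), k < m + d ∧ m ≤ k ∧
        p = rename (fun j : Fin d => (i, j)) (hsymm (Fin d) ℚ m)})

/-- The ring `S_{α,k}`. -/
abbrev S (k d r : ℕ) : Type := MvPolynomial (Fin r × Fin d) ℚ ⧸ batchIdeal k d r

/-- The degree `i` part of `S_{α,k}`. -/
noncomputable def piece (k d r i : ℕ) : Submodule ℚ (S k d r) :=
  (homogeneousSubmodule (Fin r × Fin d) ℚ i).map
    (Ideal.Quotient.mkₐ ℚ (batchIdeal k d r)).toLinearMap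

theorem wreath_mul {d r : ℕ} {g h : Equiv.Perm (Fin r × Fin d)}
    (hg : ∃ τ : Equiv.Perm (Fin r), ∀ x, (g x).1 = τ x.1)
    (hh : ∃ τ : Equiv.Perm (Fin r), ∀ x, (h x).1 = τ x.1) :
    ∃ τ : Equiv.Perm (Fin r), ∀ x, ((g * h) x).1 = τ x.1 := by
  obtain ⟨τ, hτ⟩ := hg
  obtain ⟨υ, hυ⟩ := hh
  exact ⟨τ * υ, fun x => by rw [Equiv.Perm.mul_apply, hτ, hυ]; rfl⟩

theorem wreath_inv {d r : ℕ} {g : Equiv.Perm (Fin r × Fin d)}
    (hg : ∃ τ : Equiv.Perm (Fin r), ∀ x, (g x).1 = τ x.1) :
    ∃ τ : Equiv.Perm (Fin r), ∀ x, ((g⁻¹) x).1 = τ x.1 := by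
  obtain ⟨τ, hτ⟩ := hg
  refine ⟨τ⁻¹, fun x => ?_⟩
  have h := hτ (g⁻¹ x)
  have h2 : g (g⁻¹ x) = x := g.apply_symm_apply x
  rw [h2] at h
  rw [h]
  exact (τ.symm_apply_apply _).symm

/-- The wreath product: the permutations of the variables mapping each batch onto a batch. -/
def wreath (d r : ℕ) : Subgroup (Equiv.Perm (Fin r × Fin d)) where
  carrier := {g | ∃ τ : Equiv.Perm (Fin r), ∀ x, (g x).1 = τ x.1}
  one_mem' := ⟨1, fun _ => rfl⟩
  mul_mem' := wreath_mul
  inv_mem' := wreath_inv

theorem batchIdeal_stable (k d r : ℕ) (g : wreath d r) :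
    batchIdeal k d r ≤ (batchIdeal k d r).comap (rename (R := ℚ) (g.1 : Fin r × Fin d → _)) := by
  obtain ⟨g, τ, hτ⟩ := g
  apply Ideal.span_le.2
  rintro p (⟨m, h1, h2, rfl⟩ | ⟨i, m, h1, h2, rfl⟩)
  · rw [SetLike.mem_coe, Ideal.mem_comap, rename_esymm]
    exact Ideal.subset_span (Or.inl ⟨m, h1, h2, rfl⟩)
  · rw [SetLike.mem_coe, Ideal.mem_comap, ← ho_batch, rename_ho, map_bt hτ, ho_batch]
    exact Ideal.subset_span (Or.inr ⟨τ i, m, h1, h2, rfl⟩)

/-- An element of the wreath product acts on `S_{α,k}` by permuting the variables. -/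
noncomputable def act (k d r : ℕ) (g : wreath d r) : S k d r →ₐ[ℚ] S k d r :=
  Ideal.quotientMapₐ (batchIdeal k d r) (rename g.1) (batchIdeal_stable k d r g)

theorem act_mem_piece (k d r i : ℕ) (g : wreath d r) (x : S k d r) (hx : x ∈ piece k d r i) :
    (act k d r g).toLinearMap x ∈ piece k d r i := by
  obtain ⟨p, hp, rfl⟩ := hx
  have hp' : p.IsHomogeneous i := hp
  exact ⟨rename g.1 p, hp'.rename_isHomogeneous, rfl⟩

/-- The trace of the restriction of `f` to the stable subspace `V`. -/
noncomputable def traceOn {A : Type} [AddCommGroup A] [Module ℚ A] (f : A →ₗ[ℚ] A)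
    (V : Submodule ℚ A) (h : ∀ x ∈ V, f x ∈ V) : ℚ :=
  LinearMap.trace ℚ V (f.restrict h)

/-- The graded character of `S_{α,k}`: the coefficient of `q^i` is the trace of `g` on the degree
`i` part. -/
noncomputable def gradedCharacter (k d r : ℕ) (g : wreath d r) : PowerSeries ℚ :=
  PowerSeries.mk fun i =>
    traceOn (act k d r g).toLinearMap (piece k d r i) (act_mem_piece k d r i g)

/-- The product of `1 - q^(m |c|)` over the cycles `c` of a permutation, fixed points included
(`g.partition` is the partition formed by the cycle lengths). -/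
noncomputable def cycleFactor {α : Type} [Fintype α] [DecidableEq α] (g : Equiv.Perm α)
    (m : ℕ) : PowerSeries ℚ :=
  (g.partition.parts.map fun l => (1 - PowerSeries.X ^ (l * m) : PowerSeries ℚ)).prod

theorem batchIdeal_eq (k d r : ℕ) (hdk : d ≤ k) :
    batchIdeal k d r = Bid (pb r d) (k + 1 - d) Finset.univ k := by
  apply le_antisymm
  · apply Ideal.span_le.2
    rintro p (⟨m, h1, h2, rfl⟩ | ⟨i, m, h1, h2, rfl⟩)
    · rw [SetLike.mem_coe, ← el_univ]
      exact el_mem_Bid _ _ _ _ (by rw [card_univ_rd]; exact h1)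
    · rw [SetLike.mem_coe, ← ho_batch]
      exact ho_mem_Bid _ _ _ _ _ (by omega)
  · refine Bid_le ?_ ?_ ?_
    · intro x hx; exact absurd (Finset.mem_univ x) hx
    · intro c l hl
      refine ho_mem_of_consecutive _ (k + 1 - d) (by omega) ?_ l hl
      intro j hj
      rw [card_bt] at hj
      rw [ho_batch]
      exact Ideal.subset_span (Or.inr ⟨c, _, by omega, by omega, rfl⟩)
    · intro l hl
      rw [card_univ_rd] at hl
      rcases Nat.lt_or_ge (r * d) l with h | h
      · rw [el_of_lt _ _ (by rw [card_univ_rd]; exact h)]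
        exact zero_mem _
      · rw [el_univ]
        exact Ideal.subset_span (Or.inl ⟨l, hl, h, rfl⟩)

theorem trace_piece (k d r i : ℕ) (g : wreath d r) (hst : Stable g.1 (batchIdeal k d r)) :
    traceOn (act k d r g).toLinearMap (piece k d r i) (act_mem_piece k d r i g) =
      tq g.1 i (Idl (batchIdeal k d r) i) (hst.idl i) := by
  unfold traceOn
  let q : P (Fin r × Fin d) i →ₗ[ℚ] piece k d r i :=
    LinearMap.codRestrict (piece k d r i)
      ((Ideal.Quotient.mkₐ ℚ (batchIdeal k d r)).toLinearMap ∘ₗ (P (Fin r × Fin d) i).subtype)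
      (fun p => ⟨p, p.2, rfl⟩)
  have hq : ∀ p, ((q p : piece k d r i) : S k d r) = Ideal.Quotient.mk (batchIdeal k d r) p :=
    fun p => rfl
  have hker : ∀ p, q p = 0 ↔ p ∈ Idl (batchIdeal k d r) i := by
    intro p
    rw [mem_Idl, ← Ideal.Quotient.eq_zero_iff_mem]
    constructor
    · intro h
      have h1 := hq p
      rw [h] at h1
      exact h1.symm
    · intro h; exact Subtype.ext h
  have hle : Idl (batchIdeal k d r) i ≤ LinearMap.ker q := by
    intro p hp
    rw [LinearMap.mem_ker]
    exact (hker p).2 hp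
  have hbij : Function.Bijective ((Idl (batchIdeal k d r) i).liftQ q hle) := by
    constructor
    · rw [injective_iff_map_eq_zero]
      intro x hx
      obtain ⟨p, rfl⟩ := Submodule.Quotient.mk_surjective _ x
      rw [Submodule.liftQ_apply] at hx
      rw [Submodule.Quotient.mk_eq_zero]
      exact (hker p).1 hx
    · rintro ⟨_, p, hp, rfl⟩
      exact ⟨Submodule.Quotient.mk ⟨p, hp⟩, rfl⟩
  let e := LinearEquiv.ofBijective _ hbij
  have he : ∀ p, e (Submodule.Quotient.mk p) = q p := fun p => rfl
  have hst' := hst.idl i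
  unfold tq
  rw [← LinearMap.trace_conj' ((Idl (batchIdeal k d r) i).mapQ _ (gP g.1 i) hst') e]
  congr 1
  apply LinearMap.ext
  intro x
  obtain ⟨y, rfl⟩ := e.surjective x
  obtain ⟨p, rfl⟩ := Submodule.Quotient.mk_surjective _ y
  rw [LinearEquiv.conj_apply_apply, LinearEquiv.symm_apply_apply, Submodule.mapQ_apply, he, he]
  rfl

theorem result (k d r : ℕ) (hd : 0 < d) (hdk : d ≤ k) (hr : 0 < r) :
    (r * d < k → ∀ i, piece k d r i = ⊥) ∧
    (k ≤ r * d → ∀ (g : wreath d r) (τ : Equiv.Perm (Fin r)), (∀ x, (g.1 x).1 = τ x.1) →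
      gradedCharacter k d r g * cycleFactor g.1 1 =
        ∑ T ∈ (Finset.Ioc (r * d - k) (r * d)).powerset,
          (-1) ^ T.card * PowerSeries.X ^ (∑ t ∈ T, t) *
            ∏ i ∈ Finset.range d, cycleFactor τ (k - T.card - i)) := by
  constructor
  · intro h i
    rw [eq_bot_iff]
    rintro _ ⟨p, _, rfl⟩
    rw [Submodule.mem_bot]
    change Ideal.Quotient.mk _ p = 0
    rw [Ideal.Quotient.eq_zero_iff_mem]
    have h1 : (1 : MvPolynomial (Fin r × Fin d) ℚ) ∈ batchIdeal k d r := by
      rw [← esymm_zero (Fin r × Fin d) ℚ]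
      exact Ideal.subset_span (Or.inl ⟨0, by omega, by omega, rfl⟩)
    rw [← mul_one p]
    exact Ideal.mul_mem_left _ _ h1
  · intro hk g τ hτ
    have hst : Stable g.1 (batchIdeal k d r) := fun p hp => batchIdeal_stable k d r g hp
    have h1 : gradedCharacter k d r g =
        HT g.1 (Bid (pb r d) (k + 1 - d) Finset.univ k) (stable_Bid hτ (k + 1 - d) k) := by
      have h2 : gradedCharacter k d r g = HT g.1 (batchIdeal k d r) hst := by
        ext i
        rw [gradedCharacter, PowerSeries.coeff_mk, HT, PowerSeries.coeff_mk]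
        exact trace_piece k d r i g hst
      rw [h2]
      congr 1
      exact batchIdeal_eq k d r hdk
    have h3 : cycleFactor g.1 1 = ∏ c : Cyc g.1, (1 - PowerSeries.X ^ (len g.1 c)) := by
      unfold cycleFactor
      rw [prod_partition]
      exact Finset.prod_congr rfl fun c _ => by rw [mul_one]
    rw [h1, h3, main_formula hr hd hτ k hdk hk]
    refine Finset.sum_congr rfl fun T _ => ?_
    congr 1
    rw [Finset.prod_comm]
    refine Finset.prod_congr rfl fun i _ => ?_
    unfold cycleFactor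
    rw [prod_partition]

end Pool.Agent.Results.MP_9124ab_co.GradedCharacter
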